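import Mathlib

/-!
# Elimination for coprime polynomials
-/

set_option autoImplicit false

namespace Pool.Agent.H378.KC

open Polynomial

/-- coprime polynomials over a unique factorisation domain are coprime over the fraction field -/
theorem coprime_frac {R K : Type} [CommRing R] [IsDomain R] [UniqueFactorizationMonoid R] [Field K]
    [Algebra R K] [IsFractionRing R K] (f g : R[X]) (hf : f ≠ 0) (h : IsRelPrime f g) :
    IsCoprime (f.map (algebraMap R K)) (g.map (algebraMap R K)) := by
  classical
  have : IsGCDMonoid R := inferInstance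
  let _ := Classical.arbitrary (NormalizedGCDMonoid R)
  have hinj : Function.Injective (algebraMap R K) := IsFractionRing.injective R K
  have hf' : f.map (algebraMap R K) ≠ 0 := (Polynomial.map_ne_zero_iff hinj).2 hf
  refine isCoprime_of_irreducible_dvd (fun h0 => hf' h0.1) fun π hπ h1 h2 => ?_
  set q := IsLocalization.integerNormalization (nonZeroDivisors R) π with hq
  obtain ⟨c, c0, hc⟩ := IsLocalization.integerNormalization_spec (nonZeroDivisors R) π
  rw [mem_nonZeroDivisors_iff_ne_zero] at c0
  have hq0 : q ≠ 0 := by
    intro h0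
    rw [← hq, h0, Polynomial.map_zero] at hc
    have : π = 0 := by
      have h3 : (algebraMap R K c) • π = 0 := by
        rw [algebraMap_smul]
        exact hc.symm
      exact (smul_eq_zero.1 h3).resolve_left fun h4 => c0 ((map_eq_zero_iff _ hinj).1 h4)
    exact hπ.ne_zero this
  have hπq : Associated π (q.map (algebraMap R K)) := by
    rw [hc]
    have : c • π = C (algebraMap R K c) * π := by
      rw [← algebraMap_smul K c π, Polynomial.smul_eq_C_mul]
    rw [this]
    have hu : IsUnit (C (algebraMap R K c)) :=
      Polynomial.isUnit_C.2 (isUnit_iff_ne_zero.2 (by rwa [Ne, map_eq_zero_iff _ hinj]))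
    exact (associated_unit_mul_left π _ hu).symm
  have hπp : Associated π (q.primPart.map (algebraMap R K)) := by
    refine hπq.trans ?_
    have h3 := q.eq_C_content_mul_primPart
    have hu : IsUnit (C (algebraMap R K q.content)) :=
      Polynomial.isUnit_C.2 (isUnit_iff_ne_zero.2 (by
        rw [Ne, map_eq_zero_iff _ hinj, content_eq_zero_iff]
        exact hq0))
    conv_lhs => rw [h3, Polynomial.map_mul, Polynomial.map_C]
    exact associated_unit_mul_left _ _ hu
  have hprim : q.primPart.IsPrimitive := q.isPrimitive_primPart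
  have d1 : q.primPart ∣ f := hprim.dvd_of_fraction_map_dvd_fraction_map (K := K)
    (hπp.symm.dvd.trans h1)
  have d2 : q.primPart ∣ g := hprim.dvd_of_fraction_map_dvd_fraction_map (K := K)
    (hπp.symm.dvd.trans h2)
  have hu := h d1 d2
  have hu2 : IsUnit (q.primPart.map (algebraMap R K)) := hu.map (mapRingHom (algebraMap R K))
  exact hπ.not_isUnit (hπp.symm.isUnit hu2)

/-- elimination -/
theorem elim {R : Type} [CommRing R] [IsDomain R] [UniqueFactorizationMonoid R]
    (f g : R[X]) (hf : f ≠ 0) (h : IsRelPrime f g) :
    ∃ (c : R) (u v : R[X]), c ≠ 0 ∧ C c = u * f + v * g := by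
  classical
  obtain ⟨u, v, huv⟩ := coprime_frac (K := FractionRing R) f g hf h
  have hinj : Function.Injective (algebraMap R (FractionRing R)) := IsFractionRing.injective _ _
  obtain ⟨c, c0, hc⟩ := IsLocalization.integerNormalization_spec (nonZeroDivisors R) u
  obtain ⟨d, d0, hd⟩ := IsLocalization.integerNormalization_spec (nonZeroDivisors R) v
  rw [mem_nonZeroDivisors_iff_ne_zero] at c0 d0
  refine ⟨c * d, C d * IsLocalization.integerNormalization (nonZeroDivisors R) u,
    C c * IsLocalization.integerNormalization (nonZeroDivisors R) v, mul_ne_zero c0 d0, ?_⟩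
  apply Polynomial.map_injective _ hinj
  rw [Polynomial.map_add, Polynomial.map_mul, Polynomial.map_mul, Polynomial.map_mul,
    Polynomial.map_mul, hc, hd, Polynomial.map_C, Polynomial.map_C, Polynomial.map_C]
  rw [Algebra.smul_def, Algebra.smul_def, Polynomial.algebraMap_apply,
    Polynomial.algebraMap_apply, map_mul, C_mul]
  linear_combination -(C (algebraMap R (FractionRing R) c) * C (algebraMap R (FractionRing R) d)) * huv

/-- elimination of the first variable -/
theorem elim_mv {F : Type} [Field F] {n : ℕ} (A B : MvPolynomial (Fin (n + 1)) F) (hA : A ≠ 0)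
    (h : IsRelPrime A B) : ∃ (c : MvPolynomial (Fin n) F) (u v : MvPolynomial (Fin (n + 1)) F),
      c ≠ 0 ∧ MvPolynomial.rename Fin.succ c = u * A + v * B := by
  set E := MvPolynomial.finSuccEquiv F n with hE
  have h1 : IsRelPrime (E A) (E B) := by
    intro d h2 h3
    have h4 : E.symm d ∣ A := by
      have := map_dvd E.symm h2
      rwa [AlgEquiv.symm_apply_apply] at this
    have h5 : E.symm d ∣ B := by
      have := map_dvd E.symm h3
      rwa [AlgEquiv.symm_apply_apply] at this
    have h6 := h h4 h5
    have h7 := h6.map E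
    rwa [AlgEquiv.apply_symm_apply] at h7
  have h2 : E A ≠ 0 := by rwa [Ne, map_eq_zero_iff _ E.injective]
  obtain ⟨c, u, v, hc, h3⟩ := elim (E A) (E B) h2 h1
  refine ⟨c, E.symm u, E.symm v, hc, ?_⟩
  apply E.injective
  rw [map_add, map_mul, map_mul, AlgEquiv.apply_symm_apply, AlgEquiv.apply_symm_apply, ← h3]
  have h4 : (E : MvPolynomial (Fin (n + 1)) F →ₐ[F] Polynomial (MvPolynomial (Fin n) F)).comp
      (MvPolynomial.rename Fin.succ) = (Polynomial.CAlgHom (R := F)) := by
    apply MvPolynomial.algHom_ext
    intro i
    simp only [AlgHom.comp_apply, MvPolynomial.rename_X]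
    exact MvPolynomial.finSuccEquiv_X_succ
  exact DFunLike.congr_fun h4 c

end Pool.Agent.H378.KC
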