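import Pool.Agent.H929.KC.Stm2
import Pool.Graph.R_seed8.W602.GT.Der

/-!
# Project KC (helper929): (P2) the line of an independent pair is generic
-/

set_option autoImplicit false

namespace Pool.Agent.H378.KC

open Pool.Agent.H929.KC

/-- derivations can be prescribed on independent elements -/
theorem exists_der' {k Ω : Type} [Field k] [CharZero k] [Field Ω] [Algebra k Ω] {n : Type}
    (z : n → Ω) (hz : AlgebraicIndependent k z) (c : n → Ω) :
    ∃ D : Derivation k Ω Ω, ∀ i, D (z i) = c i := by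
  classical
  obtain ⟨t, ht, hb⟩ := exists_isTranscendenceBasis_superset (R := k) (A := Ω) (s := Set.range z)
    ((algebraicIndependent_subtype_range hz.injective).2 hz)
  obtain ⟨D, hD⟩ := Pool.Agent.W602.GT.exists_der (fun a : t => (a : Ω)) hb
    (fun a => if h : ∃ i, z i = a then c h.choose else 0)
  refine ⟨D, fun i => ?_⟩
  rw [hD ⟨z i, ht ⟨i, rfl⟩⟩]
  have h : ∃ i', z i' = z i := ⟨i, rfl⟩
  rw [dif_pos h, hz.injective h.choose_spec]

section

variable {k F : Type} [Field k] [CharZero k] [Field F] [Algebra k F]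
  {G : MvPolynomial (Fin 4) k} {d : ℕ} {P : Six F}
  {Ω : Type} [Field Ω] [Algebra k Ω] {ι θ : F →ₐ[k] Ω}

/-- the line is not contained in ... : the first point is not over the line -/
theorem claimN (hF : S_FACTS) (hP1 : S_P1) (hP : Hyp G d P) (h : IP k (P.map ι) (P.map θ)) :
    ι P.y - (P.map ι).a (P.map θ) - (P.map ι).b (P.map θ) * ι P.x ≠ 0 := by
  intro h0
  have hi := hP1 k F G d P hP Ω ι θ h
  have hq : θ P.q ≠ ι P.q := by
    intro h1
    have := hi.injective.ne (show (3 : Fin 4) ≠ 1 by decide)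
    exact this h1
  have hq' : θ P.q - ι P.q ≠ 0 := sub_ne_zero.2 hq
  obtain ⟨E0, hD⟩ := hF k F G d P hP
  have hE : ι P.r + ι P.p * ι P.x + ι P.q * ι P.y + ι P.w = 0 := by
    rw [← map_mul, ← map_mul, ← map_add, ← map_add, ← map_add, E0, map_zero]
  have h2 : θ P.r + θ P.p * ι P.x + θ P.q * ι P.y + ι P.w = 0 := by
    have h3 : (θ P.q - ι P.q) * (ι P.y - (P.map ι).a (P.map θ) - (P.map ι).b (P.map θ) * ι P.x) =
        (θ P.q - ι P.q) * ι P.y + (θ P.r - ι P.r) + (θ P.p - ι P.p) * ι P.x := by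
      simp only [Six.a, Six.b, Six.map]
      field_simp
      ring
    rw [h0, mul_zero] at h3
    linear_combination hE - h3
  obtain ⟨D, hDv⟩ := exists_der' _ hi ![0, 0, 1, 0]
  have d0 : D (ι P.p) = 0 := hDv 0
  have d1 : D (ι P.q) = 0 := hDv 1
  have d2 : D (θ P.p) = 1 := hDv 2
  have d3 : D (θ P.q) = 0 := hDv 3
  obtain ⟨-, -, hk⟩ := hD Ω ι D
  have hk' := hk d0 d1
  obtain ⟨-, h5, -⟩ := hD Ω θ D
  rw [d2, d3] at h5
  have h6 := congrArg D h2
  simp only [map_add, map_zero, Derivation.leibniz, smul_eq_mul, hk', d2, d3] at h6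
  have h7 : ι P.x = θ P.x := by linear_combination h6 - h5
  exact h.injective.ne (show (0 : Fin 4) ≠ 2 by decide) h7

theorem claimN' (hF : S_FACTS) (hP1 : S_P1) (hP : Hyp G d P) (h : IP k (P.map ι) (P.map θ)) :
    θ P.y - (P.map ι).a (P.map θ) - (P.map ι).b (P.map θ) * θ P.x ≠ 0 := by
  have h' : IP k (P.map θ) (P.map ι) := by
    have h1 := h.comp (![2, 3, 0, 1] : Fin 4 → Fin 4) (by decide)
    unfold IP
    convert h1 using 1
    funext i
    fin_cases i <;> rfl
  have h2 := claimN hF hP1 hP h'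
  have h3 : (P.map θ).a (P.map ι) = (P.map ι).a (P.map θ) := by
    simp only [Six.a, Six.map]
    rw [← neg_div_neg_eq]
    congr 1 <;> ring
  have h4 : (P.map θ).b (P.map ι) = (P.map ι).b (P.map θ) := by
    simp only [Six.b, Six.map]
    rw [← neg_div_neg_eq]
    congr 1 <;> ring
  rwa [h3, h4] at h2

/-- (P2) -/
theorem t_P2 (hF : S_FACTS) (hTR : S_TR) (hP1 : S_P1) : S_P2 := by
  intro k F _ _ _ _ G d P hP Ω _ _ ι θ h
  have hN := claimN hF hP1 hP h
  have hN' := claimN' hF hP1 hP h
  have hi := hP1 k F G d P hP Ω ι θ h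
  have hq : θ P.q ≠ ι P.q := by
    intro h1
    have := hi.injective.ne (show (3 : Fin 4) ≠ 1 by decide)
    exact this h1
  have hq' : θ P.q - ι P.q ≠ 0 := sub_ne_zero.2 hq
  obtain ⟨-, hD⟩ := hF k F G d P hP
  have hr1 : ι P.r = -(P.map ι).c (P.map θ) - ι P.q * (P.map ι).a (P.map θ) := by
    simp only [Six.c, Six.map]
    ring
  have hp1 : ι P.p = -(P.map ι).e (P.map θ) - ι P.q * (P.map ι).b (P.map θ) := by
    simp only [Six.e, Six.map]
    ring
  have hr2 : θ P.r = -(P.map ι).c (P.map θ) - θ P.q * (P.map ι).a (P.map θ) := by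
    simp only [Six.c, Six.a, Six.map]
    field_simp
    ring
  have hp2 : θ P.p = -(P.map ι).e (P.map θ) - θ P.q * (P.map ι).b (P.map θ) := by
    simp only [Six.e, Six.b, Six.map]
    field_simp
    ring
  generalize ha : (P.map ι).a (P.map θ) = a at *
  generalize hb : (P.map ι).b (P.map θ) = b at *
  generalize hc : (P.map ι).c (P.map θ) = c at *
  generalize he : (P.map ι).e (P.map θ) = e at *
  have key : ∀ i, IsAlgebraic (IntermediateField.adjoin k (Set.range ![a, b, c, e]))
      ((![ι P.x, ι P.y, θ P.x, θ P.y] : Fin 4 → Ω) i) := by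
    intro i
    by_contra ht
    set K := IntermediateField.adjoin k (Set.range ![a, b, c, e]) with hK
    obtain ⟨D, hDt⟩ := exists_der' (k := K) (fun _ : Unit =>
      (![ι P.x, ι P.y, θ P.x, θ P.y] : Fin 4 → Ω) i)
      ((algebraicIndependent_unique_type_iff).2 ht) (fun _ => 1)
    have hDt' := hDt ()
    have hmem : ∀ j, D ((![a, b, c, e] : Fin 4 → Ω) j) = 0 := by
      intro j
      have h1 : (![a, b, c, e] : Fin 4 → Ω) j ∈ K :=
        IntermediateField.subset_adjoin _ _ ⟨j, rfl⟩
      exact D.map_algebraMap (⟨_, h1⟩ : K)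
    have da : D a = 0 := hmem 0
    have db : D b = 0 := hmem 1
    have dc : D c = 0 := hmem 2
    have de : D e = 0 := hmem 3
    set D' : Derivation k Ω Ω := D.restrictScalars k with hD'
    have hval : ∀ z, D' z = D z := fun z => rfl
    have step : ∀ (κ : F →ₐ[k] Ω), κ P.y - a - b * κ P.x ≠ 0 → κ P.r = -c - κ P.q * a →
        κ P.p = -e - κ P.q * b → ∀ f, D (κ f) = 0 := by
      intro κ hn h1 h2 f
      obtain ⟨-, h5, h6⟩ := hD Ω κ D'
      have h7 : D (κ P.r) = - (a * D (κ P.q)) := by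
        rw [h1]
        simp only [map_sub, map_neg, Derivation.leibniz, smul_eq_mul, da, dc]
        ring
      have h8 : D (κ P.p) = - (b * D (κ P.q)) := by
        rw [h2]
        simp only [map_sub, map_neg, Derivation.leibniz, smul_eq_mul, db, de]
        ring
      simp only [hval] at h5 h6
      rw [h7, h8] at h5
      have h9 : D (κ P.q) * (κ P.y - a - b * κ P.x) = 0 := by linear_combination h5
      have h10 : D (κ P.q) = 0 := (mul_eq_zero.1 h9).resolve_right hn
      exact h6 (by rw [h8, h10, mul_zero, neg_zero]) h10 f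
    have s1 := step ι hN hr1 hp1
    have s2 := step θ hN' hr2 hp2
    fin_cases i
    · exact zero_ne_one ((s1 P.x).symm.trans hDt')
    · exact zero_ne_one ((s1 P.y).symm.trans hDt')
    · exact zero_ne_one ((s2 P.x).symm.trans hDt')
    · exact zero_ne_one ((s2 P.y).symm.trans hDt')
  exact ⟨hTR k Ω 4 _ _ h key, key⟩

end

end Pool.Agent.H378.KC
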