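import Pool.Agent.H929.KC.Stm2
import Pool.Agent.H378.KC.SP1a

/-!
# Project KC (helper929): (SP1) coprime forms on a generic line through a point
-/

set_option autoImplicit false

namespace Pool.Agent.H378.KC

open MvPolynomial Pool.Agent.H929.KC

section deg

variable {R : Type} [CommRing R]

theorem res_eq (A : MvPolynomial (Fin 3) R) (a b : R) :
    res A a b = ∑ m ∈ A.support, Polynomial.C (A.coeff m) *
      (Polynomial.X ^ m 1 * (Polynomial.C a + Polynomial.C b * Polynomial.X) ^ m 2) := by
  rw [res, aeval_def, eval₂_eq']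
  refine Finset.sum_congr rfl fun m _ => ?_
  rw [Fin.prod_univ_three]
  simp only [Matrix.cons_val_zero, Matrix.cons_val_one, Matrix.cons_val, one_pow, one_mul]
  rfl

theorem natDegree_lin (a b : R) :
    (Polynomial.C a + Polynomial.C b * Polynomial.X : Polynomial R).natDegree ≤ 1 := by
  rw [add_comm]
  exact Polynomial.natDegree_linear_le

theorem natDegree_term (a b : R) (i j : ℕ) :
    (Polynomial.X ^ i * (Polynomial.C a + Polynomial.C b * Polynomial.X) ^ j :
      Polynomial R).natDegree ≤ i + j := by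
  refine Polynomial.natDegree_mul_le.trans (add_le_add (Polynomial.natDegree_X_pow_le i) ?_)
  refine Polynomial.natDegree_pow_le.trans ?_
  calc j * _ ≤ j * 1 := Nat.mul_le_mul_left _ (natDegree_lin a b)
    _ = j := mul_one j

theorem coeff_term (a b : R) (i j : ℕ) :
    (Polynomial.X ^ i * (Polynomial.C a + Polynomial.C b * Polynomial.X) ^ j :
      Polynomial R).coeff (i + j) = b ^ j := by
  have h0 : ((Polynomial.C a + Polynomial.C b * Polynomial.X : Polynomial R) ^ j).natDegree ≤ j := by
    refine Polynomial.natDegree_pow_le.trans ?_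
    calc j * _ ≤ j * 1 := Nat.mul_le_mul_left _ (natDegree_lin a b)
      _ = j := mul_one j
  rw [Polynomial.coeff_mul_add_eq_of_natDegree_le (Polynomial.natDegree_X_pow_le i) h0,
    Polynomial.coeff_X_pow_self, one_mul]
  have h := Polynomial.coeff_pow_of_natDegree_le (natDegree_lin a b) (m := j)
  rw [mul_one] at h
  rw [h]
  simp

theorem deg_eq (A : MvPolynomial (Fin 3) R) {α : ℕ} (hA : A.IsHomogeneous α) {m : Fin 3 →₀ ℕ}
    (hm : m ∈ A.support) : m 0 + (m 1 + m 2) = α := by
  have h := hA (mem_support_iff.1 hm)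
  rw [Finsupp.weight_apply, Finsupp.sum_fintype _ _ (by simp)] at h
  rw [Fin.sum_univ_three] at h
  simp at h
  omega

theorem res_natDegree_le (A : MvPolynomial (Fin 3) R) {α : ℕ} (hA : A.IsHomogeneous α) (a b : R) :
    (res A a b).natDegree ≤ α := by
  rw [res_eq]
  refine Polynomial.natDegree_sum_le_of_forall_le _ _ fun m hm => ?_
  refine (Polynomial.natDegree_C_mul_le _ _).trans ((natDegree_term a b _ _).trans ?_)
  have := deg_eq A hA hm
  omega

theorem res_coeff (A : MvPolynomial (Fin 3) R) {α : ℕ} (hA : A.IsHomogeneous α) (a b : R) :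
    (res A a b).coeff α = aeval ![0, 1, b] A := by
  rw [res_eq, Polynomial.finsetSum_coeff, aeval_def, eval₂_eq']
  refine Finset.sum_congr rfl fun m hm => ?_
  have h := deg_eq A hA hm
  rw [Fin.prod_univ_three]
  simp only [Matrix.cons_val_zero, Matrix.cons_val_one, Matrix.cons_val, one_pow]
  rw [Polynomial.coeff_C_mul]
  congr 1
  rcases Nat.eq_zero_or_pos (m 0) with h0 | h0
  · rw [h0, pow_zero, one_mul]
    rw [h0, zero_add] at h
    rw [← h, coeff_term, one_mul]
  · rw [zero_pow h0.ne', zero_mul, zero_mul]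
    have h1 : m 1 + m 2 < α := by omega
    exact Polynomial.coeff_eq_zero_of_natDegree_lt
      (lt_of_le_of_lt (natDegree_term a b (m 1) (m 2)) h1)

/-- the value at infinity of a form not divisible by `X 0` -/
theorem top_ne {F Ω : Type} [Field F] [Field Ω] [Algebra F Ω] (A : MvPolynomial (Fin 3) F) {α : ℕ}
    (hA : A.IsHomogeneous α) (h0 : ¬ X 0 ∣ A) {b : Ω} (hb : Transcendental F b) :
    aeval ![0, 1, b] A ≠ 0 := by
  classical
  intro h
  set q : Polynomial F := aeval ![0, 1, Polynomial.X] A with hq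
  have h1 : Polynomial.aeval b q = aeval ![0, 1, b] A := by
    rw [hq]
    have : (Polynomial.aeval b).comp (aeval (![0, 1, Polynomial.X] : Fin 3 → Polynomial F)) =
        (aeval ![0, 1, b] : MvPolynomial (Fin 3) F →ₐ[F] Ω) := by
      apply algHom_ext
      intro i
      fin_cases i <;> simp
    exact DFunLike.congr_fun this A
  have h2 : q = 0 := by
    by_contra hne
    exact hb ⟨q, hne, by rw [h1, h]⟩
  apply h0
  rw [A.as_sum]
  refine Finset.dvd_sum fun m hm => ?_
  rw [X_dvd_monomial]
  right
  intro hm0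
  have h3 : q.coeff (m 2) = A.coeff m := by
    rw [hq, aeval_def, eval₂_eq', Polynomial.finsetSum_coeff]
    rw [Finset.sum_eq_single_of_mem m hm]
    · rw [Fin.prod_univ_three]
      simp [hm0]
    · intro m' hm' hne
      rw [Fin.prod_univ_three]
      simp only [Matrix.cons_val_zero, Matrix.cons_val_one, Matrix.cons_val, one_pow, mul_one]
      rcases Nat.eq_zero_or_pos (m' 0) with h4 | h4
      · rw [h4, pow_zero, one_mul]
        change (Polynomial.C (coeff m' A) * Polynomial.X ^ m' 2).coeff (m 2) = 0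
        rw [Polynomial.coeff_C_mul, Polynomial.coeff_X_pow, if_neg, mul_zero]
        intro h5
        apply hne
        have e1 := deg_eq A hA hm
        have e2 := deg_eq A hA hm'
        ext i
        fin_cases i
        · show m' 0 = m 0
          omega
        · show m' 1 = m 1
          omega
        · show m' 2 = m 2
          omega
      · rw [zero_pow h4.ne', zero_mul, mul_zero, Polynomial.coeff_zero]
  rw [h2, Polynomial.coeff_zero] at h3
  exact (mem_support_iff.1 hm) h3.symm

end deg

section zero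

variable {F Ω : Type} [Field F] [Field Ω] [Algebra F Ω]

/-- a relation between `t U` and `U` makes `t` algebraic -/
theorem alg_of_rel (c : MvPolynomial (Fin 2) F) (hc : c ≠ 0) (t : Ω)
    (h : aeval ![Polynomial.X * Polynomial.C t, (Polynomial.X : Polynomial Ω)] c = 0) :
    IsAlgebraic F t := by
  classical
  obtain ⟨m, hm⟩ := support_nonempty.2 hc
  set N := m 0 + m 1 with hN
  set q : Polynomial F := ∑ m' ∈ c.support with m' 0 + m' 1 = N,
    Polynomial.C (c.coeff m') * Polynomial.X ^ m' 0 with hq
  refine ⟨q, ?_, ?_⟩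
  · intro h0
    have h1 : q.coeff (m 0) = c.coeff m := by
      rw [hq, Polynomial.finsetSum_coeff,
        Finset.sum_eq_single_of_mem m (Finset.mem_filter.2 ⟨hm, hN.symm⟩)]
      · simp
      · intro m' hm' hne
        rw [Polynomial.coeff_C_mul, Polynomial.coeff_X_pow, if_neg, mul_zero]
        intro h2
        apply hne
        have h3 := (Finset.mem_filter.1 hm').2
        ext i
        fin_cases i
        · show m' 0 = m 0
          omega
        · show m' 1 = m 1
          omega
    rw [h0, Polynomial.coeff_zero] at h1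
    exact (mem_support_iff.1 hm) h1.symm
  · have h1 : (aeval ![Polynomial.X * Polynomial.C t, (Polynomial.X : Polynomial Ω)] c).coeff N =
        Polynomial.aeval t q := by
      rw [aeval_def, eval₂_eq', Polynomial.finsetSum_coeff, hq, map_sum, Finset.sum_filter]
      refine Finset.sum_congr rfl fun m' _ => ?_
      rw [Fin.prod_univ_two]
      simp only [Matrix.cons_val_zero, Matrix.cons_val_one]
      have h2 : (algebraMap F (Polynomial Ω)) (coeff m' c) *
          ((Polynomial.X * Polynomial.C t) ^ m' 0 * Polynomial.X ^ m' 1) =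
          Polynomial.C (algebraMap F Ω (coeff m' c) * t ^ m' 0) * Polynomial.X ^ (m' 0 + m' 1) := by
        rw [Polynomial.algebraMap_apply, mul_pow, pow_add, map_mul, map_pow]
        ring
      rw [h2, Polynomial.coeff_C_mul, Polynomial.coeff_X_pow]
      by_cases h3 : m' 0 + m' 1 = N
      · rw [if_pos h3, if_pos h3.symm, mul_one, map_mul, map_pow, Polynomial.aeval_X,
          Polynomial.aeval_C]
      · rw [if_neg h3, if_neg (Ne.symm h3), mul_zero]
    rw [h, Polynomial.coeff_zero] at h1
    exact h1.symm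

/-- the value of a form at a multiple of a point -/
theorem aeval_scale (A : MvPolynomial (Fin 3) F) {α : ℕ} (hA : A.IsHomogeneous α) (p : Fin 3 → Ω) :
    aeval (fun i => (Polynomial.X : Polynomial Ω) * Polynomial.C (p i)) A =
      Polynomial.X ^ α * Polynomial.C (aeval p A) := by
  rw [aeval_def, eval₂_eq', aeval_def, eval₂_eq', map_sum, Finset.mul_sum]
  refine Finset.sum_congr rfl fun m hm => ?_
  rw [Fin.prod_univ_three, Fin.prod_univ_three, ← deg_eq A hA hm]
  simp only [mul_pow, pow_add, map_mul, map_pow, Polynomial.algebraMap_apply]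
  ring

/-- the coordinates of a common zero are algebraic -/
theorem alg_of_zero (A B : MvPolynomial (Fin 3) F) {α β : ℕ} (hA : A.IsHomogeneous α)
    (hB : B.IsHomogeneous β) (hA0 : A ≠ 0) (h : IsRelPrime A B) (p : Fin 3 → Ω)
    (h1 : aeval p A = 0) (h2 : aeval p B = 0) (σ : Equiv.Perm (Fin 3)) (hσ : p (σ 2) = 1) :
    IsAlgebraic F (p (σ 1)) := by
  set e : MvPolynomial (Fin 3) F ≃ₐ[F] MvPolynomial (Fin 3) F := renameEquiv F σ.symm with he
  have h3 : IsRelPrime (e A) (e B) := by
    intro d h4 h5
    have h6 : e.symm d ∣ A := by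
      have := map_dvd e.symm h4
      rwa [AlgEquiv.symm_apply_apply] at this
    have h7 : e.symm d ∣ B := by
      have := map_dvd e.symm h5
      rwa [AlgEquiv.symm_apply_apply] at this
    have h8 := (h h6 h7).map e
    rwa [AlgEquiv.apply_symm_apply] at h8
  obtain ⟨c, u, v, hc, huv⟩ := elim_mv (e A) (e B)
    (fun h0 => hA0 ((map_eq_zero_iff _ e.injective).1 h0)) h3
  set Q : Fin 3 → Polynomial Ω := fun i => Polynomial.X * Polynomial.C (p (σ i)) with hQ
  have h4 : ∀ D : MvPolynomial (Fin 3) F, aeval Q (e D) =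
      aeval (fun i => (Polynomial.X : Polynomial Ω) * Polynomial.C (p i)) D := by
    intro D
    rw [he, renameEquiv_apply, aeval_rename]
    congr 2
    funext i
    simp [hQ]
  have h5 := congrArg (aeval Q) huv
  rw [map_add, map_mul, map_mul, h4, h4, aeval_scale A hA, aeval_scale B hB, h1, h2, map_zero,
    mul_zero, mul_zero, mul_zero, mul_zero, add_zero, aeval_rename] at h5
  refine alg_of_rel c hc _ ?_
  rw [← h5]
  congr 2
  funext i
  fin_cases i
  · simp [hQ]
  · simp [hQ, hσ]

end zero

/-- (SP1) -/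
theorem t_SP1 : S_SP1 := by
  intro F Ω _ _ _ _ A B α β hA hB hAB hA0 hB0 x y b hb
  have hA' : (A.map (algebraMap F Ω)).IsHomogeneous α := hA.map _
  have hB' : (B.map (algebraMap F Ω)).IsHomogeneous β := hB.map _
  have hdeg : ∀ (D : MvPolynomial (Fin 3) F) (γ : ℕ), D.IsHomogeneous γ → ¬ X 0 ∣ D → ∀ a : Ω,
      (res (D.map (algebraMap F Ω)) a b).natDegree = γ := by
    intro D γ hD hD0 a
    apply le_antisymm (res_natDegree_le _ (hD.map _) a b)
    apply Polynomial.le_natDegree_of_ne_zero
    rw [res_coeff _ (hD.map _), aeval_map_algebraMap]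
    exact top_ne D hD hD0 hb
  refine ⟨hdeg A α hA hA0 _, hdeg B β hB hB0 _, fun t h1 h2 => ?_⟩
  set s : Ω := algebraMap F Ω y - b * algebraMap F Ω x + b * t with hs
  have hev : ∀ D : MvPolynomial (Fin 3) F,
      (res (D.map (algebraMap F Ω)) (algebraMap F Ω y - b * algebraMap F Ω x) b).eval t =
        aeval ![1, t, s] D := by
    intro D
    rw [res, aeval_map_algebraMap]
    have h3 : ((Polynomial.aeval t : Polynomial Ω →ₐ[Ω] Ω).restrictScalars F).comp
        (aeval ![1, Polynomial.X, Polynomial.C (algebraMap F Ω y - b * algebraMap F Ω x) +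
          Polynomial.C b * Polynomial.X]) =
        (aeval ![1, t, s] : MvPolynomial (Fin 3) F →ₐ[F] Ω) := by
      apply algHom_ext
      intro i
      fin_cases i <;> simp [hs]
    have h4 := DFunLike.congr_fun h3 D
    simpa using h4
  rw [hev] at h1 h2
  have hAne : A ≠ 0 := fun h0 => hA0 (h0 ▸ dvd_zero _)
  have ht : IsAlgebraic F t := by
    have := alg_of_zero A B hA hB hAne hAB ![1, t, s] h1 h2 (Equiv.swap 0 2) (by simp)
    have h3 : (Equiv.swap (0 : Fin 3) 2) 1 = 1 := by decide
    rw [h3] at this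
    exact this
  have hs' : IsAlgebraic F s := by
    have := alg_of_zero A B hA hB hAne hAB ![1, t, s] h1 h2 (Equiv.swap 0 2 * Equiv.swap 0 1)
      (by
        have : (Equiv.swap (0 : Fin 3) 2 * Equiv.swap 0 1 : Equiv.Perm (Fin 3)) 2 = 0 := by decide
        rw [this]
        rfl)
    have h3 : (Equiv.swap (0 : Fin 3) 2 * Equiv.swap 0 1 : Equiv.Perm (Fin 3)) 1 = 2 := by decide
    rw [h3] at this
    exact this
  have hF : ∀ z : Ω, IsAlgebraic F z → ∃ z₀ : F, algebraMap F Ω z₀ = z := by
    intro z hz
    have h3 : Algebra.IsAlgebraic F (IntermediateField.adjoin F {z}) :=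
      IntermediateField.isAlgebraic_adjoin_simple hz.isIntegral
    obtain ⟨z₀, hz₀⟩ := (IsAlgClosed.algebraMap_bijective_of_isIntegral
      (k := F) (K := IntermediateField.adjoin F {z})).2
        ⟨z, IntermediateField.mem_adjoin_simple_self F z⟩
    exact ⟨z₀, congrArg (algebraMap (IntermediateField.adjoin F {z}) Ω) hz₀⟩
  obtain ⟨t₀, ht₀⟩ := hF t ht
  obtain ⟨s₀, hs₀⟩ := hF s hs'
  by_contra hne
  apply hb
  have h5 : t₀ - x ≠ 0 := by
    intro h6
    apply hne
    rw [← ht₀, sub_eq_zero.1 h6]
  have h6 : b = algebraMap F Ω ((s₀ - y) / (t₀ - x)) := by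
    rw [map_div₀, map_sub, map_sub, ht₀, hs₀, eq_div_iff, hs]
    · ring
    · rw [← ht₀, ← map_sub]
      rwa [Ne, map_eq_zero]
  rw [h6]
  exact isAlgebraic_algebraMap _

end Pool.Agent.H378.KC
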